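import Pool.Agent.Helper50.VD.St

open MeasureTheory Set Filter Topology
open scoped ENNReal

noncomputable section

namespace VD.M_E5

/-- reflection in the axis -/
def sgE : (ℝ × ℝ) ≃ᵐ (ℝ × ℝ) := MeasurableEquiv.prodCongr (MeasurableEquiv.refl ℝ) (MeasurableEquiv.neg ℝ)

theorem sgE_apply (y : ℝ × ℝ) : sgE y = (y.1, -y.2) := rfl

theorem sgE_mp : MeasurePreserving sgE (volume : Measure (ℝ × ℝ)) volume := by
  have h := (MeasurePreserving.id (volume : Measure ℝ)).prod
    (Measure.measurePreserving_neg (volume : Measure ℝ))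
  exact h

theorem vel_patch (hE3 : StE3) (A : Set (ℝ × ℝ)) (hA : MeasurableSet A) (hs : A ⊆ Om)
    (hv : volume A < ∞) (x : ℝ × ℝ) : vel (patch A) x = vA A x := by
  obtain ⟨h1, h2, h3⟩ := hE3.1 A hA hs hv x
  have e : ∀ y : ℝ × ℝ, patch A y • kBS (x - y) = A.indicator (fun w => kBS (x - w)) y -
      (A.indicator (fun w : ℝ × ℝ => kBS (x - (w.1, -w.2)))) (sgE y) := by
    intro y
    unfold patch
    rw [sub_smul]
    congr 1
    · by_cases h : y ∈ A
      · rw [indicator_of_mem h, indicator_of_mem h, one_smul]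
      · rw [indicator_of_notMem h, indicator_of_notMem h, zero_smul]
    · rw [sgE_apply]
      by_cases h : (y.1, -y.2) ∈ A
      · rw [indicator_of_mem h, indicator_of_mem h, one_smul]
        simp
      · rw [indicator_of_notMem h, indicator_of_notMem h, zero_smul]
  have i1 : Integrable (A.indicator (fun w => kBS (x - w))) := by
    rw [integrable_indicator_iff hA]; exact h2
  have i2 : Integrable (A.indicator (fun w : ℝ × ℝ => kBS (x - (w.1, -w.2)))) := by
    rw [integrable_indicator_iff hA]; exact h3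
  have i3 : Integrable (fun y => (A.indicator (fun w : ℝ × ℝ => kBS (x - (w.1, -w.2)))) (sgE y)) :=
    (sgE_mp.integrable_comp_emb sgE.measurableEmbedding).mpr i2
  unfold vel vA
  simp_rw [e]
  rw [integral_sub i1 i3, sgE_mp.integral_comp sgE.measurableEmbedding, integral_indicator hA,
    integral_indicator hA, ← integral_sub h2 h3]
  rfl

theorem energy_bdd (hE3 : StE3) (hE4 : StE4) (A : Set (ℝ × ℝ)) (hA : MeasurableSet A)
    (hs : A ⊆ Om) (hb : ∃ R, A ⊆ Box R) :
    ∫⁻ x, ENNReal.ofReal ((vA A x).1 ^ 2 + (vA A x).2 ^ 2) = ENNReal.ofReal (2 * BG A A) := by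
  obtain ⟨h1, h2, h3⟩ := hE4 A A hA hA hs hs hb hb
  rw [← ofReal_integral_eq_lintegral_ofReal h1 (Filter.Eventually.of_forall fun x => by positivity)]
  rw [← h3]
  congr 2
  funext x
  ring

end VD.M_E5

namespace VD
open M_E5

/-- energy of a patch, Fatou for unbounded patches -/
theorem mE5 (_hK0 : StK0) (hK9 : StK9) (hE3 : StE3) (hE4 : StE4) : StE5 := by
  refine ⟨?_, ?_, ?_⟩
  · intro A hA hs hb
    obtain ⟨R, hR⟩ := hb
    have hv : volume A < ∞ := vol_lt_top hR
    unfold Energy
    simp_rw [vel_patch hE3 A hA hs hv]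
    rw [energy_bdd hE3 hE4 A hA hs ⟨R, hR⟩]
    have h4 : (4 : ℝ≥0∞) = ENNReal.ofReal 4 := by simp
    rw [h4, ← ENNReal.ofReal_div_of_pos (by norm_num)]
    congr 1
    ring
  · intro A hA hs hv hnu
    unfold Energy
    simp_rw [vel_patch hE3 A hA hs hv]
    -- exhaustion
    set Q : ℕ → Set (ℝ × ℝ) := fun n => A ∩ Box n with hQ
    have hQm : ∀ n, MeasurableSet (Q n) := fun n => hA.inter (measurableSet_Box n)
    have hQs : ∀ n, Q n ⊆ Om := fun n => inter_subset_left.trans hs
    have hQb : ∀ n, ∃ R, Q n ⊆ Box R := fun n => ⟨n, inter_subset_right⟩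
    have hmono : Monotone Q := by
      intro a b hab
      exact inter_subset_inter_right _ (Box_mono (by exact_mod_cast hab))
    have hU : (⋃ n, Q n) = A := by
      ext z
      simp only [mem_iUnion]
      constructor
      · rintro ⟨n, hn⟩
        exact hn.1
      · intro hz
        obtain ⟨n, hn⟩ := exists_nat_ge (max |z.1| z.2)
        exact ⟨n, hz, (le_max_left _ _).trans hn, hs hz, (le_max_right _ _).trans hn⟩
    have hlim : ∀ x, Tendsto (fun n => vA (Q n) x) atTop (𝓝 (vA A x)) := by
      intro x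
      have h := tendsto_setIntegral_of_monotone (μ := volume) (f := fun y => kap y x) hQm hmono
        (by rw [hU]; exact (hE3.1 A hA hs hv x).1)
      rw [hU] at h
      exact h
    have hlim2 : ∀ x, Tendsto (fun n => ENNReal.ofReal ((vA (Q n) x).1 ^ 2 + (vA (Q n) x).2 ^ 2))
        atTop (𝓝 (ENNReal.ofReal ((vA A x).1 ^ 2 + (vA A x).2 ^ 2))) := by
      intro x
      apply ENNReal.tendsto_ofReal
      have h1 := (continuous_fst.tendsto _).comp (hlim x)
      have h2 := (continuous_snd.tendsto _).comp (hlim x)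
      exact (h1.pow 2).add (h2.pow 2)
    have hF : ∫⁻ x, ENNReal.ofReal ((vA A x).1 ^ 2 + (vA A x).2 ^ 2) ≤
        ENNReal.ofReal (2 * BG A A) := by
      have h1 : ∀ x, ENNReal.ofReal ((vA A x).1 ^ 2 + (vA A x).2 ^ 2) =
          liminf (fun n => ENNReal.ofReal ((vA (Q n) x).1 ^ 2 + (vA (Q n) x).2 ^ 2)) atTop :=
        fun x => (hlim2 x).liminf_eq.symm
      simp_rw [h1]
      refine (lintegral_liminf_le' ?_).trans ?_
      · intro n
        have := (hE4 (Q n) (Q n) (hQm n) (hQm n) (hQs n) (hQs n) (hQb n) (hQb n)).1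
        exact this.aestronglyMeasurable.aemeasurable.ennreal_ofReal
      · simp_rw [fun n => energy_bdd hE3 hE4 (Q n) (hQm n) (hQs n) (hQb n)]
        have h2 : Tendsto (fun n : ℕ => ENNReal.ofReal (2 * BG (Q n) (Q n))) atTop
            (𝓝 (ENNReal.ofReal (2 * BG A A))) := by
          apply ENNReal.tendsto_ofReal
          have h3 := (hK9.2 A hA hs hv hnu).comp tendsto_natCast_atTop_atTop
          exact h3.const_mul 2
        exact h2.liminf_eq.le
    have h4 : (4 : ℝ≥0∞) = ENNReal.ofReal 4 := by simp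
    have h5 : ENNReal.ofReal (BG A A / 2) = ENNReal.ofReal (2 * BG A A) / 4 := by
      rw [h4, ← ENNReal.ofReal_div_of_pos (by norm_num)]
      congr 1
      ring
    rw [h5]
    exact ENNReal.div_le_div_right hF _
  · intro ω ω' h
    unfold Energy
    have : ∀ x, vel ω x = vel ω' x := by
      intro x
      unfold vel
      apply integral_congr_ae
      filter_upwards [h] with y hy
      rw [hy]
    simp_rw [this]

end VD
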