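import Pool.Agent.Helper50.VD.St

open MeasureTheory Set Filter Topology
open scoped ENNReal

noncomputable section

namespace VD.M_W4

theorem N_nonneg (hK1 : StK1) (z y : ℝ × ℝ) (hz : 0 ≤ z.2) (hy : 0 < y.2) : 0 ≤ N z y := by
  by_cases h : z = y
  · subst h
    unfold N G
    rw [if_neg hy.ne']
    simp
  · exact (hK1 z y hz hy h).1.le

theorem N_refl (z : ℝ × ℝ) (y s : ℝ) : N z (-y, s) = N (-z.1, z.2) (y, s) := by
  unfold N G
  simp only
  have h : (z.1 - -y) ^ 2 = (-z.1 - y) ^ 2 := by ring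
  rw [h]

/-- rows are integrable -/
theorem N_row (hK0 : StK0) (hK1 : StK1) (z : ℝ × ℝ) (s : ℝ) (hz : 0 ≤ z.2) (hs : 0 < s)
    (a b : ℝ) (hab : a ≤ b) : IntegrableOn (fun y => N z (y, s)) (Icc a b) := by
  have hm : Measurable (fun y : ℝ => N z (y, s)) :=
    hK0.1.comp (measurable_const.prodMk (measurable_id.prodMk measurable_const))
  by_cases h : z.2 = s
  · have hlog : IntervalIntegrable (fun y : ℝ => Real.log (z.1 - y)) volume a b := by
      have h1 := (intervalIntegral.intervalIntegrable_log' (a := z.1 - a) (b := z.1 - b))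
      have h2 := h1.comp_sub_left z.1
      simpa using h2
    have hlog2 : IntervalIntegrable (fun y : ℝ => Real.log ((z.1 - y) ^ 2 + (2 * s) ^ 2))
        volume a b := by
      apply Continuous.intervalIntegrable
      apply Continuous.log
      · fun_prop
      · intro x
        positivity
    have hI : IntervalIntegrable (fun y : ℝ => (Real.log ((z.1 - y) ^ 2 + (2 * s) ^ 2) -
        2 * Real.log (z.1 - y)) / (4 * Real.pi) / s) volume a b :=
      ((hlog2.sub (hlog.const_mul 2)).div_const _).div_const _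
    rw [intervalIntegrable_iff_integrableOn_Icc_of_le hab] at hI
    apply hI.congr_fun_ae
    have hne : ∀ᵐ y : ℝ, y ≠ z.1 := by simp [ae_iff, measure_singleton]
    filter_upwards [ae_restrict_of_ae hne] with y hy
    have hy' : z.1 - y ≠ 0 := fun h0 => hy (by linarith)
    unfold N G
    simp only
    rw [if_neg (by rw [h]; exact hs.ne'), h]
    have e1 : (s - s) ^ 2 = 0 := by ring
    have e2 : (s + s) ^ 2 = (2 * s) ^ 2 := by ring
    rw [e1, e2, add_zero, Real.log_div (by positivity) (by positivity), Real.log_pow]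
    norm_num
  · have hpos : 0 < Real.sqrt ((z.2 - s) ^ 2) :=
      Real.sqrt_pos.mpr (by have : z.2 - s ≠ 0 := sub_ne_zero.mpr h
                            positivity)
    have hfin : (volume (Icc a b) : ℝ≥0∞) ≠ ∞ := by
      rw [Real.volume_Icc]; exact ENNReal.ofReal_ne_top
    apply Measure.integrableOn_of_bounded (M := 1 / (Real.pi * Real.sqrt ((z.2 - s) ^ 2))) hfin
      hm.aestronglyMeasurable
    · refine Filter.Eventually.of_forall fun y => ?_
      have hne : z ≠ (y, s) := fun h0 => h (by rw [h0])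
      have hk := hK1 z (y, s) hz hs hne
      rw [Real.norm_of_nonneg hk.1.le]
      refine hk.2.1.trans ?_
      apply one_div_le_one_div_of_le
      · exact mul_pos Real.pi_pos hpos
      · apply mul_le_mul_of_nonneg_left _ Real.pi_pos.le
        apply Real.sqrt_le_sqrt
        simp only
        nlinarith [sq_nonneg (z.1 - y)]

theorem den_pos (z : ℝ × ℝ) (s y : ℝ) (hs : 0 < s) :
    0 < 10 ^ 4 * (z.1 ^ 2 + z.2 ^ 2) + (y ^ 2 + s ^ 2) - 2 * (100 * z.1) * y ∧
    0 < 10 ^ 4 * (z.1 ^ 2 + z.2 ^ 2) + (y ^ 2 + s ^ 2) + 2 * (100 * z.1) * y := by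
  have h := mul_pos hs hs
  constructor <;> nlinarith [sq_nonneg (100 * z.1 - y), sq_nonneg (100 * z.1 + y), sq_nonneg z.2]

theorem kS_nonneg (z : ℝ × ℝ) (s y : ℝ) (hs : 0 < s) : 0 ≤ kS z s y := by
  obtain ⟨h1, h2⟩ := den_pos z s y hs
  unfold kS fF
  exact add_nonneg (one_div_pos.mpr h1).le (one_div_pos.mpr h2).le

theorem kS_cont (z : ℝ × ℝ) (s : ℝ) (hs : 0 < s) : Continuous (kS z s) := by
  unfold kS fF
  apply Continuous.add
  · apply Continuous.div continuous_const (by fun_prop)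
    intro y
    exact (den_pos z s y hs).1.ne'
  · apply Continuous.div continuous_const (by fun_prop)
    intro y
    exact (den_pos z s y hs).2.ne'

theorem kb (hK1 : StK1) (z : ℝ × ℝ) (y s : ℝ) (hz : 0 ≤ z.2) (hs : 0 < s) (h1 : z ≠ (y, s))
    (h2 : z ≠ (-y, s)) :
    s / Real.pi * (10 ^ 4 * kS z (100 * s) (100 * y)) ≤ N z (y, s) + N z (-y, s) := by
  have k1 := (hK1 z (y, s) hz hs h1).2.2.2.2
  have k2 := (hK1 z (-y, s) hz hs h2).2.2.2.2
  simp only at k1 k2
  have hsp : 0 < s / Real.pi := div_pos hs Real.pi_pos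
  have hss := mul_pos hs hs
  have d1 : 0 < (z.1 - y) ^ 2 + z.2 ^ 2 + s ^ 2 := by positivity
  have d2 : 0 < (z.1 - -y) ^ 2 + z.2 ^ 2 + s ^ 2 := by positivity
  have e1 : s / Real.pi * (1 / ((z.1 - y) ^ 2 + z.2 ^ 2 + s ^ 2)) ≤ N z (y, s) := by
    refine le_trans ?_ k1
    apply mul_le_mul_of_nonneg_left _ hsp.le
    have : 0 ≤ (2 * z.2 * s) ^ 2 / (3 * ((z.1 - y) ^ 2 + z.2 ^ 2 + s ^ 2) ^ 3) := by positivity
    linarith
  have e2 : s / Real.pi * (1 / ((z.1 - -y) ^ 2 + z.2 ^ 2 + s ^ 2)) ≤ N z (-y, s) := by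
    refine le_trans ?_ k2
    apply mul_le_mul_of_nonneg_left _ hsp.le
    have : 0 ≤ (2 * z.2 * s) ^ 2 / (3 * ((z.1 - -y) ^ 2 + z.2 ^ 2 + s ^ 2) ^ 3) := by positivity
    linarith
  have e3 : 10 ^ 4 * kS z (100 * s) (100 * y) =
      1 / ((z.1 - y) ^ 2 + z.2 ^ 2 + s ^ 2) + 1 / ((z.1 - -y) ^ 2 + z.2 ^ 2 + s ^ 2) := by
    unfold kS fF
    have f1 : 10 ^ 4 * (z.1 ^ 2 + z.2 ^ 2) + ((100 * y) ^ 2 + (100 * s) ^ 2) -
        2 * (100 * z.1) * (100 * y) = 10 ^ 4 * ((z.1 - y) ^ 2 + z.2 ^ 2 + s ^ 2) := by ring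
    have f2 : 10 ^ 4 * (z.1 ^ 2 + z.2 ^ 2) + ((100 * y) ^ 2 + (100 * s) ^ 2) +
        2 * (100 * z.1) * (100 * y) = 10 ^ 4 * ((z.1 - -y) ^ 2 + z.2 ^ 2 + s ^ 2) := by ring
    rw [f1, f2]
    field_simp
  rw [e3, mul_add]
  exact add_le_add e1 e2

/-! ### the polygon -/

theorem gE_lt (z : ℝ × ℝ) (s1 : ℕ) (hz1 : 0 ≤ z.1) (h2 : 100 * z.2 ≤ s1) :
    ∀ l : List (ℕ × ℕ × ℕ), (∀ e ∈ l, 0 < e.1 ∧ 0 < e.2.2) → 100 * z.1 < xIn s1 l →
      gE z l < 1 := by
  intro l
  induction l with
  | nil => intro _ _; simp [gE]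
  | cons e l ih =>
    obtain ⟨dh, dx, c⟩ := e
    intro hl hx
    have hdh := (hl (dh, dx, c) (by simp)).1
    have hc := (hl (dh, dx, c) (by simp)).2
    simp only at hdh hc
    have hxe : xIn s1 ((dh, dx, c) :: l) = min ((100 * c - dx * s1) / dh) (xIn s1 l) := by
      rw [xIn, mn_eq]; rfl
    rw [hxe, Nat.cast_min, lt_min_iff] at hx
    obtain ⟨ha, hb⟩ := hx
    have ih' := ih (fun e he => hl e (by simp [he])) hb
    unfold gE
    refine max_lt ?_ ih'
    have hcR : (0 : ℝ) < c := by exact_mod_cast hc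
    have hdR : (0 : ℝ) < dh := by exact_mod_cast hdh
    rw [div_lt_one hcR, abs_of_nonneg hz1]
    -- the quotient is positive
    have hq : 0 < (100 * c - dx * s1) / dh := by
      have : (0 : ℝ) < (((100 * c - dx * s1) / dh : ℕ) : ℝ) := lt_of_le_of_lt (by positivity) ha
      exact_mod_cast this
    have hq2 : 0 < 100 * c - dx * s1 := by
      by_contra h0
      have : 100 * c - dx * s1 = 0 := by omega
      rw [this] at hq
      simp at hq
    have hq3 : dh * ((100 * c - dx * s1) / dh) ≤ 100 * c - dx * s1 := Nat.mul_div_le _ _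
    have hq4 : dh * ((100 * c - dx * s1) / dh) + dx * s1 ≤ 100 * c := by omega
    have hq5 : (dh : ℝ) * (((100 * c - dx * s1) / dh : ℕ) : ℝ) + dx * s1 ≤ 100 * c := by
      exact_mod_cast hq4
    have h3 : (dh : ℝ) * (100 * z.1) < dh * (((100 * c - dx * s1) / dh : ℕ) : ℝ) :=
      mul_lt_mul_of_pos_left ha hdR
    have h4 : (dx : ℝ) * (100 * z.2) ≤ dx * s1 := mul_le_mul_of_nonneg_left h2 (by positivity)
    linarith

theorem gE_ge (z : ℝ × ℝ) (R s0 : ℕ) (hz1 : 0 ≤ z.1) (h2 : (s0 : ℝ) ≤ 100 * z.2) :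
    ∀ l : List (ℕ × ℕ × ℕ), (∀ e ∈ l, 0 < e.1 ∧ 0 < e.2.2) → xOut R s0 l < 647500 →
      (xOut R s0 l : ℝ) ≤ 100 * z.1 → (R : ℝ) / 10000 ≤ gE z l := by
  intro l
  induction l with
  | nil => intro _ h; simp [xOut] at h
  | cons e l ih =>
    obtain ⟨dh, dx, c⟩ := e
    intro hl hx hx2
    have hdh := (hl (dh, dx, c) (by simp)).1
    have hc := (hl (dh, dx, c) (by simp)).2
    simp only at hdh hc
    have hxe : xOut R s0 ((dh, dx, c) :: l) =
        min ((R * c - 100 * dx * s0 + (100 * dh - 1)) / (100 * dh)) (xOut R s0 l) := by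
      rw [xOut, mn_eq]; rfl
    rw [hxe] at hx hx2
    unfold gE
    rcases le_total ((R * c - 100 * dx * s0 + (100 * dh - 1)) / (100 * dh)) (xOut R s0 l) with h | h
    · rw [min_eq_left h] at hx2
      refine le_trans ?_ (le_max_left _ _)
      have hcR : (0 : ℝ) < c := by exact_mod_cast hc
      rw [div_le_div_iff₀ (by norm_num) hcR, abs_of_nonneg hz1]
      have h100 : 0 < 100 * dh := by omega
      have h3 : R * c - 100 * dx * s0 ≤
          100 * dh * ((R * c - 100 * dx * s0 + (100 * dh - 1)) / (100 * dh)) := by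
        have h4 := Nat.div_add_mod (R * c - 100 * dx * s0 + (100 * dh - 1)) (100 * dh)
        have h5 := Nat.mod_lt (R * c - 100 * dx * s0 + (100 * dh - 1)) h100
        omega
      have h4 : R * c ≤ 100 * dh * ((R * c - 100 * dx * s0 + (100 * dh - 1)) / (100 * dh)) +
          100 * dx * s0 := by omega
      have h5 : (R : ℝ) * c ≤
          100 * dh * (((R * c - 100 * dx * s0 + (100 * dh - 1)) / (100 * dh) : ℕ) : ℝ) +
          100 * dx * s0 := by exact_mod_cast h4
      have h6 : 100 * (dh : ℝ) * (((R * c - 100 * dx * s0 + (100 * dh - 1)) / (100 * dh) : ℕ) : ℝ)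
          ≤ 100 * dh * (100 * z.1) := mul_le_mul_of_nonneg_left hx2 (by positivity)
      have h7 : 100 * (dx : ℝ) * s0 ≤ 100 * dx * (100 * z.2) :=
        mul_le_mul_of_nonneg_left h2 (by positivity)
      linarith
    · rw [min_eq_right h] at hx hx2
      exact (ih (fun e he => hl e (by simp [he])) hx hx2).trans (le_max_right _ _)

theorem Es_pos : ∀ e ∈ Es, 0 < e.1 ∧ 0 < e.2.2 := by decide

theorem rowV_zero (P : Pts) (x0 xn s0 s1 : ℕ) (h : xn ≤ x0) : rowV P x0 xn s0 s1 = 0 := by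
  unfold rowV
  rw [Nat.ble_eq.mpr h]
  rfl

theorem rowV_pos (P : Pts) (x0 w s0 s1 : ℕ) (h : 0 < w) :
    rowV P x0 (x0 + w) s0 s1 =
      (dp P (s1 * s1) x0 w (cond (Nat.ble P.yT s0) P.xT 1000000) 16).2 := by
  unfold rowV
  have hb : Nat.ble (x0 + w) x0 = false := by
    cases hb : Nat.ble (x0 + w) x0
    · rfl
    · exact absurd (Nat.ble_eq.mp hb) (by omega)
  rw [hb]
  have hw2 : Nat.sub (x0 + w) x0 = w := by
    change x0 + w - x0 = w
    omega
  rw [cond_false, hw2]
  rfl

theorem xIn_le (s : ℕ) : ∀ l, xIn s l ≤ 647500 := by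
  intro l
  induction l with
  | nil => exact le_rfl
  | cons e l ih =>
    obtain ⟨dh, dx, c⟩ := e
    rw [xIn, mn_eq]
    exact (min_le_right _ _).trans ih

end VD.M_W4

namespace VD
open M_W4

/-- row lemma of the wide contact check: assembles cell bounds, scaling by 100, slices of DM sets -/
theorem mW4 (hK0 : StK0) (hK1 : StK1) (hK2 : StK2) (hP0 : StP0) (hU1 : StU1) (hU2 : StU2) (hW3 : StW3) (hW4a : StW4a) (hA1 : StA1) : StW4 := by
  intro R1 hR1 hR1' harc hnP A ρ p q hC hpq hρR s0 s1 hs01 hs1 s hs0 hs1' hsq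
  have hUU := hU2 A ρ p q hC
  obtain ⟨hgc, hgh, hgb, hgm, hgm1, hgm2, hgPB⟩ := hP0
  have hs : 0 < s := lt_of_le_of_lt (by positivity) hs0
  have hspi : 0 < s / Real.pi := div_pos hs Real.pi_pos
  by_cases hx : xIn s1 Es ≤ xOut R1 s0 Es
  · rw [rowV_zero _ _ _ _ _ hx]
    simp only [Nat.cast_zero, zero_mul, zero_div]
    exact hUU.2.1 s
  push Not at hx
  have hxn := xIn_le s1 Es
  set x0 := xOut R1 s0 Es with hx0
  set xn := xIn s1 Es with hxn'
  obtain ⟨w, hw⟩ : ∃ w, xn = x0 + w := ⟨xn - x0, by omega⟩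
  set lim : ℕ := cond (Nat.ble (mkPts R1).yT s0) (mkPts R1).xT 1000000 with hlim
  have hrow : rowV (mkPts R1) x0 xn s0 s1 = (dp (mkPts R1) (s1 * s1) x0 w lim 16).2 := by
    rw [hw]
    exact rowV_pos _ _ _ _ _ (by omega)
  rw [hrow]
  -- measurability and integrability of the row
  set F : ℝ → ℝ := fun y => (PB 1 \ A).indicator (fun z => N p z + N p (-z.1, z.2)) (y, s) +
      (A \ PB ρ).indicator (fun z => N q z + N q (-z.1, z.2)) (y, s) with hF
  have hIF : Irow A ρ p q s = ∫ y in Ioi (0 : ℝ), F y := rfl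
  have hNm : ∀ z : ℝ × ℝ, Measurable (fun y : ℝ × ℝ => N z y + N z (-y.1, y.2)) := by
    intro z
    exact (hK0.1.comp (measurable_const.prodMk measurable_id)).add
      (hK0.1.comp (measurable_const.prodMk (measurable_fst.neg.prodMk measurable_snd)))
  have hPB1 : MeasurableSet (PB 1) := (hgPB 1 one_pos).1.meas
  have hPBρ : MeasurableSet (PB ρ) := (hgPB ρ hC.hρ).1.meas
  have hFm : Measurable F := by
    have hpr : Measurable (fun y : ℝ => ((y, s) : ℝ × ℝ)) := measurable_id.prodMk measurable_const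
    exact (((hNm p).indicator (hPB1.diff hC.dm.meas)).comp hpr).add
      (((hNm q).indicator (hC.dm.meas.diff hPBρ)).comp hpr)
  have hNp : ∀ y : ℝ, 0 ≤ N p (y, s) + N p (-y, s) := fun y =>
    add_nonneg (N_nonneg hK1 p _ hC.p2 hs) (N_nonneg hK1 p _ hC.p2 hs)
  have hNq : ∀ y : ℝ, 0 ≤ N q (y, s) + N q (-y, s) := fun y =>
    add_nonneg (N_nonneg hK1 q _ hC.q2 hs) (N_nonneg hK1 q _ hC.q2 hs)
  have hF0 : ∀ y, 0 ≤ F y := by
    intro y
    rw [hF]
    apply add_nonneg
    · apply indicator_apply_nonneg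
      intro _
      exact hNp y
    · apply indicator_apply_nonneg
      intro _
      exact hNq y
  have hFB : ∀ y, F y ≤ (N p (y, s) + N p (-y, s)) + (N q (y, s) + N q (-y, s)) := by
    intro y
    rw [hF]
    apply add_le_add
    · apply indicator_apply_le'
      · intro _; exact le_rfl
      · intro _; exact hNp y
    · apply indicator_apply_le'
      · intro _; exact le_rfl
      · intro _; exact hNq y
  have hA6 : ∀ z : ℝ × ℝ, z ∈ A → |z.1| ≤ 6475 := by
    intro z hz
    have h1 := (hgb z (le_of_lt (hC.dm.sub hz))).2.1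
    have h2 := hC.out z hz
    linarith
  have hP6 : ∀ z : ℝ × ℝ, z ∈ PB 1 → |z.1| ≤ 6475 := by
    intro z hz
    have h1 := (hgb z hz.1.le).2.1
    have h2 := hz.2
    linarith
  have hFz : ∀ y ∈ Ioi (6475 : ℝ), (0 : ℝ) = F y := by
    intro y hy
    have hy' : (6475 : ℝ) < y := hy
    have habs : |y| = y := abs_of_pos (by linarith)
    have n1 : ((y, s) : ℝ × ℝ) ∉ PB 1 := by
      intro h
      have := hP6 _ h
      simp only [habs] at this
      linarith
    have n2 : ((y, s) : ℝ × ℝ) ∉ A := by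
      intro h
      have := hA6 _ h
      simp only [habs] at this
      linarith
    rw [hF]
    simp only
    rw [indicator_of_notMem (fun h => n1 h.1), indicator_of_notMem (fun h => n2 h.1)]
    norm_num
  have hNint : ∀ z : ℝ × ℝ, 0 ≤ z.2 →
      IntegrableOn (fun y : ℝ => N z (y, s) + N z (-y, s)) (Icc 0 6475) := by
    intro z hz
    apply (N_row hK0 hK1 z s hz hs 0 6475 (by norm_num)).add
    have h := N_row hK0 hK1 (-z.1, z.2) s hz hs 0 6475 (by norm_num)
    exact h.congr_fun (fun y _ => (N_refl z y s).symm) measurableSet_Icc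
  have hFi : IntegrableOn F (Ioi 0) := by
    have h1 : IntegrableOn F (Icc 0 6475) := by
      apply Integrable.mono' ((hNint p hC.p2).add (hNint q hC.q2)) hFm.aestronglyMeasurable
      refine Filter.Eventually.of_forall fun y => ?_
      rw [Real.norm_of_nonneg (hF0 y)]
      exact hFB y
    have h2 : IntegrableOn F (Ioi 6475) := integrableOn_zero.congr_fun hFz measurableSet_Ioi
    apply (h1.union h2).mono_set
    intro y hy
    by_cases h : y ≤ 6475
    · exact Or.inl ⟨le_of_lt hy, h⟩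
    · exact Or.inr (lt_of_not_ge h)
  -- the end of the row of `A`
  set S : Set ℝ := {y | 0 ≤ y ∧ ((y, s) : ℝ × ℝ) ∈ A} with hS
  have hSb : ∀ y ∈ S, y ≤ 6475 := by
    intro y hy
    have := hA6 _ hy.2
    exact (le_abs_self _).trans this
  have hSbdd : BddAbove S := ⟨6475, hSb⟩
  have hS6 : sSup S ≤ 6475 := by
    apply Real.sSup_le hSb
    norm_num
  have hgq : g q ≤ (R1 : ℝ) / 10000 := by rw [hC.gq]; exact hρR
  have hq2 : 100 * q.2 ≤ ((mkPts R1).yT : ℝ) := by
    have h1 := (hgb q hC.q2).2.2.1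
    have h2 : R1 * 3887 ≤ 100 * yTop R1 := by
      change R1 * 3887 ≤ 100 * ((R1 * 3887 + 99) / 100)
      omega
    have h3 : (R1 : ℝ) * 3887 ≤ 100 * (yTop R1 : ℝ) := by exact_mod_cast h2
    change 100 * q.2 ≤ ((yTop R1 : ℕ) : ℝ)
    linarith
  have hq1 : 100 * q.1 ≤ ((mkPts R1).xT : ℝ) := by
    have h1 := (hgb q hC.q2).2.1
    rw [abs_of_nonneg hC.q1] at h1
    have h2 : R1 * 6475 ≤ 100 * xTip R1 := by
      change R1 * 6475 ≤ 100 * ((R1 * 6475 + 99) / 100)
      omega
    have h3 : (R1 : ℝ) * 6475 ≤ 100 * (xTip R1 : ℝ) := by exact_mod_cast h2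
    change 100 * q.1 ≤ ((xTip R1 : ℕ) : ℝ)
    linarith
  set t : ℝ := 100 * sSup S with ht
  have htl : t ≤ lim := by
    rw [hlim]
    by_cases hy : (mkPts R1).yT ≤ s0
    · rw [Nat.ble_eq.mpr hy]
      simp only [cond_true]
      have hyR : ((mkPts R1).yT : ℝ) ≤ s0 := by exact_mod_cast hy
      have hsq2 : q.2 < s := by linarith
      have h3 : sSup S ≤ q.1 := by
        apply Real.sSup_le _ hC.q1
        intro y hy
        have := (hU1 A ρ p q hC).2.2 (y, s) hy.2 hsq2
        exact (le_abs_self _).trans this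
      linarith
    · have hb : Nat.ble (mkPts R1).yT s0 = false := by
        cases hb : Nat.ble (mkPts R1).yT s0
        · rfl
        · exact absurd (Nat.ble_eq.mp hb) hy
      rw [hb]
      simp only [cond_false]
      push_cast
      linarith
  -- apply the dynamic programming lemma
  have hs' : 0 < 100 * s := by linarith
  have hs1R : 100 * s ≤ s1 := by linarith
  have hbd : ∀ i, bd x0 w i ≤ bd x0 w (i + 1) := by
    intro i
    change x0 + w * i / 16 ≤ x0 + w * (i + 1) / 16
    have : w * i ≤ w * (i + 1) := Nat.mul_le_mul_left _ (by omega)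
    omega
  have hp2 : 100 * p.2 ≤ ((mkPts R1).yT : ℝ) := by linarith
  have hdp := hW3 (mkPts R1) (s1 * s1) x0 w lim (fun y => 10 ^ 18 * kS p (100 * s) y)
    (fun y => 10 ^ 18 * kS q (100 * s) y)
    (fun y => mul_nonneg (by positivity) (kS_nonneg p _ y hs'))
    (fun y => mul_nonneg (by positivity) (kS_nonneg q _ y hs'))
    ((continuous_const.mul (kS_cont p _ hs')).intervalIntegrable _ _)
    ((continuous_const.mul (kS_cont q _ hs')).intervalIntegrable _ _)
    (fun i _ => by
      have h := ((hW4a R1 hR1 hR1' harc hnP (100 * s) s1 _ _ hs' hs1R (hbd i)).1 p hC.p1 hC.p2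
        hC.gp hp2).1
      rw [intervalIntegral.integral_const_mul]
      exact h)
    (fun i _ => by
      have h := ((hW4a R1 hR1 hR1' harc hnP (100 * s) s1 _ _ hs' hs1R (hbd i)).2 q hC.q1 hC.q2
        hgq).1
      rw [intervalIntegral.integral_const_mul]
      exact h)
    (fun i _ y hy1 hy2 => by
      have h1 := ((hW4a R1 hR1 hR1' harc hnP (100 * s) s1 _ _ hs' hs1R (hbd i)).1 p hC.p1 hC.p2
        hC.gp hp2).2 y hy1 hy2
      have h2 := ((hW4a R1 hR1 hR1' harc hnP (100 * s) s1 _ _ hs' hs1R (hbd i)).2 q hC.q1 hC.q2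
        hgq).2 y hy1 hy2
      exact ⟨h1, h2⟩) t htl
  rw [← hw] at hdp
  set H : ℝ → ℝ := fun y => if y < t then 10 ^ 18 * kS q (100 * s) y else
    10 ^ 18 * kS p (100 * s) y with hH
  have hH0 : ∀ y, 0 ≤ H y := by
    intro y
    rw [hH]
    simp only
    split_ifs
    · exact mul_nonneg (by positivity) (kS_nonneg q _ y hs')
    · exact mul_nonneg (by positivity) (kS_nonneg p _ y hs')
  have hx0n : (x0 : ℝ) < xn := by exact_mod_cast hx
  -- scaling
  have hsc : ∫ y in ((x0 : ℝ) / 100)..((xn : ℝ) / 100), H (100 * y) =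
      (100 : ℝ)⁻¹ * ∫ y in (x0 : ℝ)..(xn : ℝ), H y := by
    rw [intervalIntegral.integral_comp_mul_left (fun y => H y) (by norm_num : (100 : ℝ) ≠ 0),
      smul_eq_mul]
    congr 2 <;> ring
  have hab : (x0 : ℝ) / 100 ≤ xn / 100 := by linarith
  have hx00 : (0 : ℝ) ≤ x0 := by positivity
  -- pointwise comparison
  have hcmp : ∀ᵐ y ∂(volume.restrict (Ioc ((x0 : ℝ) / 100) (xn / 100))),
      s / Real.pi / 10 ^ 14 * H (100 * y) ≤ F y := by
    have hn1 : ∀ᵐ y : ℝ, y ≠ (xn : ℝ) / 100 := by simp [ae_iff, measure_singleton]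
    have hn2 : ∀ᵐ y : ℝ, y ≠ sSup S := by simp [ae_iff, measure_singleton]
    have hn3 : ∀ᵐ y : ℝ, y ≠ p.1 := by simp [ae_iff, measure_singleton]
    filter_upwards [ae_restrict_of_ae hn1, ae_restrict_of_ae hn2, ae_restrict_of_ae hn3,
      ae_restrict_mem measurableSet_Ioc] with y h1 h2 h3 hy
    have hy1 : (x0 : ℝ) < 100 * y := by have := hy.1; linarith
    have hy2 : 100 * y < xn := by
      have := lt_of_le_of_ne hy.2 h1
      linarith
    have hy0 : 0 < y := by linarith
    have hin : ((y, s) : ℝ × ℝ) ∈ PB 1 := by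
      refine ⟨hs, ?_⟩
      exact gE_lt (y, s) s1 hy0.le hs1R Es Es_pos hy2
    have hout : ((y, s) : ℝ × ℝ) ∉ PB ρ := by
      intro h
      have h4 : (s0 : ℝ) ≤ 100 * s := by linarith
      have h5 := gE_ge (y, s) R1 s0 hy0.le h4 Es Es_pos (by omega) hy1.le
      have h6 : g (y, s) < ρ := h.2
      have h7 : (R1 : ℝ) / 10000 ≤ g (y, s) := h5
      linarith
    rcases lt_or_gt_of_ne h2 with hlt | hgt
    · -- in `A`
      have hyA : ((y, s) : ℝ × ℝ) ∈ A := by
        have hne : S.Nonempty := by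
          by_contra hem
          rw [not_nonempty_iff_eq_empty] at hem
          rw [hem, Real.sSup_empty] at hlt
          linarith
        obtain ⟨y1, hy1S, hyy1⟩ := exists_lt_of_lt_csSup hne hlt
        refine hC.dm.mono _ hy1S.2 (y, s) hs ?_ le_rfl
        simp only
        rw [abs_of_pos hy0, abs_of_nonneg hy1S.1]
        exact hyy1.le
      have hFe : F y = N q (y, s) + N q (-y, s) := by
        rw [hF]
        simp only
        rw [indicator_of_notMem (fun h => h.2 hyA), indicator_of_mem (show _ ∈ A \ PB ρ from ⟨hyA, hout⟩)]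
        ring
      have hHe : H (100 * y) = 10 ^ 18 * kS q (100 * s) (100 * y) := by
        rw [hH]
        simp only
        rw [if_pos (by rw [ht]; linarith)]
      rw [hFe, hHe]
      have := kb hK1 q y s hC.q2 hs (fun h => hsq (by rw [h])) (fun h => hsq (by rw [h]))
      refine le_trans (le_of_eq ?_) this
      ring
    · have hyA : ((y, s) : ℝ × ℝ) ∉ A := by
        intro h
        have : y ≤ sSup S := le_csSup hSbdd ⟨hy0.le, h⟩
        linarith
      have hFe : F y = N p (y, s) + N p (-y, s) := by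
        rw [hF]
        simp only
        rw [indicator_of_mem (show _ ∈ PB 1 \ A from ⟨hin, hyA⟩), indicator_of_notMem (fun h => hyA h.1)]
        ring
      have hHe : H (100 * y) = 10 ^ 18 * kS p (100 * s) (100 * y) := by
        rw [hH]
        simp only
        rw [if_neg (by rw [ht]; push Not; linarith)]
      rw [hFe, hHe]
      have := kb hK1 p y s hC.p2 hs (fun h => h3 (by rw [h])) (fun h => by
        have h8 := hC.p1
        rw [h] at h8
        simp only at h8
        linarith)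
      refine le_trans (le_of_eq ?_) this
      ring
  have hstep1 : ∫ y in Ioc ((x0 : ℝ) / 100) (xn / 100), s / Real.pi / 10 ^ 14 * H (100 * y) ≤
      ∫ y in Ioc ((x0 : ℝ) / 100) (xn / 100), F y := by
    apply integral_mono_of_nonneg
    · exact Filter.Eventually.of_forall fun y => mul_nonneg (by positivity) (hH0 _)
    · apply hFi.mono_set
      intro y hy
      have := hy.1
      exact lt_of_le_of_lt (by positivity) this
    · exact hcmp
  have hstep2 : ∫ y in Ioc ((x0 : ℝ) / 100) (xn / 100), F y ≤ ∫ y in Ioi (0 : ℝ), F y := by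
    apply setIntegral_mono_set hFi
    · exact Filter.Eventually.of_forall fun y => hF0 y
    · apply HasSubset.Subset.eventuallyLE
      intro y hy
      have := hy.1
      exact lt_of_le_of_lt (by positivity) this
  rw [hIF]
  refine le_trans ?_ (hstep1.trans hstep2)
  rw [integral_const_mul, ← intervalIntegral.integral_of_le hab, hsc]
  have h9 : s / Real.pi / 10 ^ 14 * ((100 : ℝ)⁻¹ * ((dp (mkPts R1) (s1 * s1) x0 w lim 16).2 : ℝ)) ≤
      s / Real.pi / 10 ^ 14 * ((100 : ℝ)⁻¹ * ∫ y in (x0 : ℝ)..(xn : ℝ), H y) := by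
    apply mul_le_mul_of_nonneg_left _ (by positivity)
    apply mul_le_mul_of_nonneg_left hdp (by positivity)
  refine le_trans (le_of_eq ?_) h9
  field_simp
  norm_num

end VD
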